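import Pool.Agent.Helper68.Dom.Goals

set_option autoImplicit false

/-!
Packet DOM-PSETS (MP_18808e_co).
-/

namespace NApexGraphs.Dom.Helper24

open SimpleGraph NApexGraphs NApexGraphs.Dom

universe w

variable {V : Type} {G G' : SimpleGraph V}

/-- The image of a connected set under a map which preserves the adjacency on `Z`. -/
theorem conn_image {Z : Set V} (f : V → V)
    (hadj : ∀ a ∈ Z, ∀ b ∈ Z, G.Adj a b → G'.Adj (f a) (f b)) {S : Set V} (hS : S ⊆ Z)
    (h : Conn G S) : Conn G' (f '' S) := by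
  refine ⟨h.1.image f, ?_⟩
  intro A hA hne hcl
  have h1 : S ⊆ S ∩ f ⁻¹' A := by
    refine h.2 (S ∩ f ⁻¹' A) Set.inter_subset_left ?_ ?_
    · obtain ⟨y, hy⟩ := hne
      obtain ⟨s, hs, rfl⟩ := hA hy
      exact ⟨s, hs, hy⟩
    · rintro a ⟨ha, haA⟩ b hb hab
      exact ⟨hb, hcl _ haA _ ⟨b, hb, rfl⟩ (hadj a (hS ha) b (hS hb) hab)⟩
  rintro _ ⟨s, hs, rfl⟩
  exact (h1 hs).2

/-- The image of a model. -/
theorem model_image {κ : Type w} {K : SimpleGraph κ} {B : κ → Set V} {Z : Set V} (f : V → V)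
    (hinj : Set.InjOn f Z) (hadj : ∀ a ∈ Z, ∀ b ∈ Z, G.Adj a b → G'.Adj (f a) (f b))
    (h : IsModel K G B) (hB : ∀ k, B k ⊆ Z) : IsModel K G' (fun k => f '' B k) := by
  rw [isModel_iff] at h ⊢
  obtain ⟨hc, hd, ha⟩ := h
  refine ⟨fun k => conn_image f hadj (hB k) (hc k), ?_, ?_⟩
  · intro k l hkl
    rw [Set.disjoint_left]
    rintro _ ⟨a, haB, rfl⟩ ⟨b, hbB, hab⟩
    have e : b = a := hinj (hB l hbB) (hB k haB) hab
    rw [e] at hbB
    exact Set.disjoint_left.1 (hd k l hkl) haB hbB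
  · intro k l hkl
    obtain ⟨a, haB, b, hbB, hab⟩ := ha k l hkl
    exact ⟨f a, ⟨a, haB, rfl⟩, f b, ⟨b, hbB, rfl⟩, hadj a (hB k haB) b (hB l hbB) hab⟩

/-- Planarity pulls back under a map which is injective on `Z`. -/
theorem pl_of_map {Z Z' : Set V} (f : V → V) (hinj : Set.InjOn f Z) (hmaps : ∀ a ∈ Z, f a ∈ Z')
    (hadj : ∀ a ∈ Z, ∀ b ∈ Z, G.Adj a b → G'.Adj (f a) (f b)) (h : Pl G' Z') : Pl G Z := by
  constructor
  · rintro ⟨B, hB, hs⟩
    refine h.1 ⟨_, model_image f hinj hadj hB hs, fun k => ?_⟩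
    rintro _ ⟨a, ha, rfl⟩
    exact hmaps a (hs k ha)
  · rintro ⟨B, hB, hs⟩
    refine h.2 ⟨_, model_image f hinj hadj hB hs, fun k => ?_⟩
    rintro _ ⟨a, ha, rfl⟩
    exact hmaps a (hs k ha)

/-- Planarity depends only on the edges inside `Z`. -/
theorem pl_agree {Z : Set V} (hadj : ∀ a ∈ Z, ∀ b ∈ Z, G.Adj a b → G'.Adj a b) (h : Pl G' Z) :
    Pl G Z :=
  pl_of_map id (Set.injOn_id Z) (fun _ ha => ha) hadj h

/-- Deletion of an edge with an end outside of `Z`. -/
theorem adj_delete {u x a b : V} (hab : G.Adj a b) (h1 : ¬ (a = u ∧ b = x))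
    (h2 : ¬ (a = x ∧ b = u)) : (G.deleteEdges {s(u, x)}).Adj a b := by
  rw [SimpleGraph.deleteEdges_adj]
  refine ⟨hab, ?_⟩
  rw [Set.mem_singleton_iff, Sym2.eq_iff]
  rintro (h | h)
  · exact h1 h
  · exact h2 h

theorem gPSETS : Goals.PSETS := by
  classical
  intro V _ G n u x hS hxu
  obtain ⟨X, hXn, hXp⟩ := hS.del x hxu
  have hu : u ∉ X := by
    intro hu
    refine hS.non X hXn (pl_agree (fun a ha b hb hab => adj_delete hab ?_ ?_) hXp)
    · rintro ⟨rfl, -⟩
      exact ha (Finset.mem_coe.2 hu)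
    · rintro ⟨-, rfl⟩
      exact hb (Finset.mem_coe.2 hu)
  have hx : x ∉ X := by
    intro hx
    refine hS.non X hXn (pl_agree (fun a ha b hb hab => adj_delete hab ?_ ?_) hXp)
    · rintro ⟨-, rfl⟩
      exact hb (Finset.mem_coe.2 hx)
    · rintro ⟨rfl, -⟩
      exact ha (Finset.mem_coe.2 hx)
  have hc : X.card = n := by
    by_contra hne
    have hlt : X.card < n := lt_of_le_of_ne hXn hne
    have hcard : (insert x X).card ≤ n := (Finset.card_insert_le x X).trans hlt
    refine hS.non (insert x X) hcard ?_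
    have hsub : ((insert x X : Finset V) : Set V)ᶜ ⊆ ((X : Set V)ᶜ) := by
      intro z hz hz2
      exact hz (Finset.mem_coe.2 (Finset.mem_insert_of_mem (Finset.mem_coe.1 hz2)))
    refine pl_agree (fun a ha b hb hab => adj_delete hab ?_ ?_) (hXp.mono le_rfl hsub)
    · rintro ⟨-, rfl⟩
      exact hb (Finset.mem_coe.2 (Finset.mem_insert_self _ _))
    · rintro ⟨rfl, -⟩
      exact ha (Finset.mem_coe.2 (Finset.mem_insert_self _ _))
  refine ⟨X, hc, hu, hx, ?_, hXp⟩
  intro s hs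
  by_contra hns
  have hus : u ≠ s := by
    rintro rfl
    exact hu hs
  have hcard : (insert u (X.erase s)).card ≤ n := by
    refine (Finset.card_insert_le u _).trans ?_
    rw [Finset.card_erase_of_mem hs]
    have : 0 < X.card := Finset.card_pos.2 ⟨s, hs⟩
    omega
  refine hS.non (insert u (X.erase s)) hcard ?_
  have hZ : ∀ a ∈ ((insert u (X.erase s) : Finset V) : Set V)ᶜ, a ≠ u ∧ (a ≠ s → a ∉ X) := by
    intro a ha
    refine ⟨?_, ?_⟩
    · rintro rfl
      exact ha (Finset.mem_coe.2 (Finset.mem_insert_self _ _))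
    · intro has haX
      exact ha (Finset.mem_coe.2 (Finset.mem_insert_of_mem (Finset.mem_erase.2 ⟨has, haX⟩)))
  refine pl_of_map (fun z => if z = s then u else z) ?_ ?_ ?_ hXp
  · intro a ha b hb hab
    have ha1 := (hZ a ha).1
    have hb1 := (hZ b hb).1
    have hab' : (if a = s then u else a) = (if b = s then u else b) := hab
    split_ifs at hab' with h1 h2 h2
    · rw [h1, h2]
    · exact absurd hab'.symm hb1
    · exact absurd hab' ha1
    · exact hab'
  · intro a ha
    show (if a = s then u else a) ∈ ((X : Set V)ᶜ)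
    split_ifs with h1
    · exact fun h => hu (Finset.mem_coe.1 h)
    · exact fun h => (hZ a ha).2 h1 (Finset.mem_coe.1 h)
  · intro a ha b hb hab
    have ha1 := (hZ a ha).1
    have hb1 := (hZ b hb).1
    show (G.deleteEdges {s(u, x)}).Adj (if a = s then u else a) (if b = s then u else b)
    split_ifs with h1 h2 h2
    · rw [h1, h2] at hab
      exact absurd hab (G.irrefl)
    · refine adj_delete (hS.dom b hb1) ?_ ?_
      · rintro ⟨-, h3⟩
        rw [h1, h3] at hab
        exact hns hab.symm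
      · rintro ⟨-, h3⟩
        exact hb1 h3
    · refine adj_delete (hS.dom a ha1).symm ?_ ?_
      · rintro ⟨h3, -⟩
        exact ha1 h3
      · rintro ⟨h3, -⟩
        rw [h2, h3] at hab
        exact hns hab
    · refine adj_delete hab ?_ ?_
      · rintro ⟨h3, -⟩
        exact ha1 h3
      · rintro ⟨-, h3⟩
        exact hb1 h3

end NApexGraphs.Dom.Helper24
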